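import Pool.Agent.Run7.h197.D.All

/-!
# MP_821da1_nt: integer points on the curves `T(x, y) = C P(x, y)^n` for large `n`

Let `T` be a binary form over `ℤ`, `s` and `D` natural numbers. We consider ALL the curves

  `F(x, y) = T(x, y) - C P(x, y)^n = 0`,

where `C = C₁ C₂` is a nonzero integer and `P` ANY polynomial over `ℤ` of degree between `1` and `D` with
`P(0, 0) ≠ 0` such that every point at infinity of `P = 0` is different from two of the points at
infinity of `T = 0` (this holds for all `P` if `T` has three different zeros on the projective line; if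
`T` has two, it says that they are not zeros of the leading form `Q` of `P`), and such that
`C₂ P(0, 0)` has at most `s` prime factors. The degree `n deg P` of the curves is not bounded. Their points at infinity are
those of `P = 0`, and if `Q` is a power of an irreducible form, for example if `P` is linear, then they
are conjugate, so that Runge's method does not apply. The top form of `F` is `-C Q^n`.

**Theorem.** There is `κ`, which depends only on `T`, `s`, `D`, with the following property. Let
`R = 2 + log |C₁| + log rad(C₂ P(0, 0)) + log len(P)`, where `rad` is the product of the prime factors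
and `len` the sum of the absolute values of the coefficients. If `n > R^κ`, then all integer points
`(x, y)` on the curve satisfy

  `P(x, y) ∈ {-1, 0, 1}`, `T(x, y) ∈ {-C, 0, C}` and `max(|x|, |y|) ≤ exp(R^κ)`,

unless `P` is constant on the line through `(0, 0)` and `(x, y)`, and then they satisfy
`max(|x|, |y|) ≤ |C P(0, 0)^n| exp(R^κ)`.

So on these families of curves of unbounded genus the size of the integer points is at most the
maximum of the coefficients (`|C P(0,0)^n|` is one) times `exp(R^κ)`, where `R` is logarithmic in the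
coefficients of `P` and `C₁` and in the prime factors of `C₂`; in general it is at most `exp(R^κ)`,
which does not depend on `n`. For fixed `T`, `C`, `P` and all but finitely many `n` the integer points
are on the finitely many lines through `(0, 0)` on which `P` is constant and among the points, which do
not depend on `n`, with `P(x, y) ∈ {-1, 0, 1}` and `T(x, y) ∈ {-C, 0, C}`. The number `κ` given by the
proof is computable; the formal statement asserts its existence.

Proof. Let `(x, y)` be an integer point on the curve. As `|P(x, y)|^n ≤ |T(x, y)|`, the value `P(x, y)` is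
small, so `x/y` is close to a zero `α` of `Q`, a number of degree at most `D` (or infinity):
`|x/y - α| ≤ max(|x|, |y|)^(-1/(4D))`. Let
`(x, y) = g (x', y')` with coprime `x'`, `y'`. A prime which divides `g` and not `C` divides `P(x, y)` and
so `P(0, 0)`. Therefore the order of `T(x', y')` at a prime not dividing `C₂ P(0, 0)` is a multiple of
`n`, up to the order of `C₁`. So if `β`, `β'` are two zeros of `T`, the number `(x' - β y')/(x' - β' y')` is a
product of an `n`-th power and of powers of boundedly many numbers of small height, and it is close to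
`(α - β)/(α - β')`. The lower bounds for linear forms in logarithms which are sharp in one of the
heights, with all other terms variable and uniform in all number fields of bounded degree
(`Run7.h197.BK`, `Run7.h197.U`, `Run7.h197.D`), give `min(n, log max(|x'|, |y'|)) ≤ R^κ`; the field of
`α` varies. Finally `g` is bounded by comparing the sizes of the two sides, and
`|P(x, y)| ≤ 1` as otherwise `|T(x, y)| ≥ 2^n`.
-/

set_option autoImplicit false

open MvPolynomial

namespace Pool.Agent.Results.MP_821da1_nt.FormsEqualPowers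

/-- The sum of the absolute values of the coefficients. -/
def len (P : MvPolynomial (Fin 2) ℤ) : ℤ := ∑ d ∈ P.support, |P.coeff d|

/-- The product of the primes dividing `z`. -/
def radical (z : ℤ) : ℕ := ∏ p ∈ z.natAbs.primeFactors, p

/-- For every zero `z ≠ 0` of `Q` there are two zeros of `T` such that these three vectors are
pairwise not proportional. -/
def Separated (T Q : MvPolynomial (Fin 2) ℤ) : Prop :=
  ∀ z : Fin 2 → ℂ, z ≠ 0 → aeval z Q = 0 → ∃ z₁ z₂ : Fin 2 → ℂ, aeval z₁ T = 0 ∧ aeval z₂ T = 0 ∧
    z 0 * z₁ 1 ≠ z 1 * z₁ 0 ∧ z 0 * z₂ 1 ≠ z 1 * z₂ 0 ∧ z₁ 0 * z₂ 1 ≠ z₁ 1 * z₂ 0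

/-- `max (|x|, |y|)`. -/
noncomputable def size (x y : ℤ) : ℝ := max |(x : ℝ)| |(y : ℝ)|

/-- The number `R = 2 + log |C₁| + log rad(C₂ P(0, 0)) + log len(P)` for `P = Q + P'`. -/
noncomputable def parameter (C₁ C₂ : ℤ) (Q P' : MvPolynomial (Fin 2) ℤ) : ℝ :=
  2 + Real.log C₁.natAbs + Real.log (radical (C₂ * eval ![0, 0] P')) +
    Real.log ((len Q + len P' : ℤ) : ℝ)

/-- **Integer points on the curves `T = C P^n`.** Here `P = Q + P'` with a form `Q` of degree `d` and a
polynomial `P'` of smaller degree. -/
theorem result (T : MvPolynomial (Fin 2) ℤ) (e : ℕ) (hT : T.IsHomogeneous e) (hT0 : T ≠ 0)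
    (he : 1 ≤ e) (s D : ℕ) :
    ∃ κ : ℕ, ∀ (n : ℕ) (C₁ C₂ : ℤ) (d : ℕ) (Q P' : MvPolynomial (Fin 2) ℤ),
      C₁ ≠ 0 → C₂ ≠ 0 → 1 ≤ d → d ≤ D → Q.IsHomogeneous d → Q ≠ 0 → P'.totalDegree < d →
      Separated T Q → eval ![0, 0] P' ≠ 0 →
      (C₂ * eval ![0, 0] P').natAbs.primeFactors.card ≤ s →
      parameter C₁ C₂ Q P' ^ κ < n →
      ∀ x y : ℤ, eval ![x, y] (T - C (C₁ * C₂) * (Q + P') ^ n) = 0 →
        (|eval ![x, y] (Q + P')| ≤ 1 ∧ size x y ≤ Real.exp (parameter C₁ C₂ Q P' ^ κ)) ∨
        ((∀ t : ℤ, eval ![t * x, t * y] (Q + P') = eval ![0, 0] (Q + P')) ∧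
          size x y ≤ |((C₁ * C₂ : ℤ) : ℝ)| * |((eval ![0, 0] P' : ℤ) : ℝ)| ^ n *
            Real.exp (parameter C₁ C₂ Q P' ^ κ)) := by
  obtain ⟨κ, h⟩ := Run7.h197.D.all_trivU hT hT0 he s D
  refine ⟨κ, ?_⟩
  intro n C₁ C₂ d Q P' hC₁ hC₂ hd hdD hQ hQ0 hP' hsep h0 hs hR x y heq
  have heq' : eval ![x, y] T = C₁ * C₂ * (eval ![x, y] (Q + P')) ^ n := by
    rw [map_sub, map_mul, eval_C, map_pow] at heq
    linarith
  exact h n C₁ C₂ (eval ![0, 0] P') d Q P' hC₁ hC₂ hd hdD hQ hQ0 hP' hsep rfl h0
    hs (parameter C₁ C₂ Q P') rfl hR x y heq'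

end Pool.Agent.Results.MP_821da1_nt.FormsEqualPowers
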