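import Pool.Agent.Run7.h953.KP.Asm
import Pool.Agent.Run7.h953.KP.Tl
import Pool.Agent.N656.LL.Fin

/-!
# The limit law of the integer points of the random plane curves with at least `k` integer points

Let `φ` be a form of degree `d` with integer coefficients that is irreducible over `ℚ`, and
consider the curves `φ + R = 0`, where `R` runs through all polynomials of degree less than `d`
with integer coefficients in `[-H, H]`; these `R` have `N = d (d + 1) / 2` coefficients. Let
`k ≥ 1` and `d ≥ 3 k + 18`. As `H → ∞`, the number of the curves with at least `k` integer points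
is `(∑ V(S) + o(1)) H ^ (N - k)`, where `S` runs through all sets of `k` points of `ℤ ^ 2`; almost
all of these curves have exactly `k` integer points and are absolutely irreducible, and the law of
the set of their integer points converges in total variation to the law with weights proportional
to `V`. The weights do not depend on the leading form `φ`. A function `B(H)` bounds the integer
points of almost all of these curves if and only if it tends to infinity.
-/

set_option autoImplicit false

open Filter Topology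

namespace Pool.Agent.Results.MP_821da1_nt.ManyPointsLimitLaw

/-- the polynomials of total degree less than `d` with coefficients in `[-H, H]` -/
def Box (d H : ℕ) : Set (MvPolynomial (Fin 2) ℤ) :=
  {R | R.totalDegree < d ∧ ∀ m, |R.coeff m| ≤ (H : ℤ)}

/-- `P` is an integer point of the curve `F = 0` -/
def IsPoint (F : MvPolynomial (Fin 2) ℤ) (P : ℤ × ℤ) : Prop := MvPolynomial.eval ![P.1, P.2] F = 0

/-- all members of `S` are integer points of the curve `F = 0` -/
def Through (F : MvPolynomial (Fin 2) ℤ) (S : Finset (ℤ × ℤ)) : Prop := ∀ P ∈ S, IsPoint F P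

/-- the number of the `R` in the box for which the curve `φ + R = 0` passes through all points of
some member of `A` -/
noncomputable def number (φ : MvPolynomial (Fin 2) ℤ) (d : ℕ) (A : Set (Finset (ℤ × ℤ)))
    (H : ℕ) : ℕ :=
  Set.ncard {R ∈ Box d H | ∃ S ∈ A, Through (φ + R) S}

/-- the sets of `k` points -/
def Sets (k : ℕ) : Set (Finset (ℤ × ℤ)) := {S | S.card = k}

/-- the size of a point -/
def size (P : ℤ × ℤ) : ℕ := max P.1.natAbs P.2.natAbs

/-- the sets of `k` points, one of which has size larger than `T` -/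
def Large (k T : ℕ) : Set (Finset (ℤ × ℤ)) := {S | S.card = k ∧ ∃ P ∈ S, T < size P}

/-- the product of the sizes of the points of `S`, where sizes `0` are replaced by `1` -/
def product (S : Finset (ℤ × ℤ)) : ℕ := ∏ P ∈ S, max 1 (size P)

/-- the probability measure on the sets of `k` points with weights proportional to `V` -/
noncomputable def μ (V : Finset (ℤ × ℤ) → ℝ) (k : ℕ) (A : Set (Finset (ℤ × ℤ))) : ℝ :=
  (∑' S : A, V S.1) / ∑' S : Sets k, V S.1

open Pool.Agent.Run7.h953.KP Pool.Agent.R414.DN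

lemma ncard_Box (e H : ℕ) (Q : MvPolynomial (Fin 2) ℤ → Prop) :
    Set.ncard {R ∈ Box (e + 1) H | Q R} = Set.ncard {a : Cf e | a ∈ ibox ↥(I e) H ∧ Q (poly a)} := by
  classical
  have h1 := ncard_box e H Q
  have h2 : Set.ncard {R ∈ Box (e + 1) H | Q R} =
      Set.ncard {R : MvPolynomial (Fin 2) ℤ | R.totalDegree ≤ e ∧
      (∀ m, |R.coeff m| ≤ (H : ℤ)) ∧ Q R} := by
    congr 1
    ext R
    constructor
    · rintro ⟨⟨h3, h4⟩, h5⟩
      exact ⟨Nat.lt_succ_iff.1 h3, h4, h5⟩
    · rintro ⟨h3, h4, h5⟩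
      exact ⟨⟨Nat.lt_succ_iff.2 h3, h4⟩, h5⟩
  rw [h2, h1, ← Set.ncard_coe_finset]
  congr 1
  ext a
  rw [Finset.coe_filter]

lemma product_eq (S : Finset (ℤ × ℤ)) : (product S : ℝ) = pt S := by
  unfold product pt tau
  rw [Nat.cast_prod]
  refine Finset.prod_congr rfl fun P _ => ?_
  rw [Nat.cast_max, Nat.cast_one]
  rfl

section

variable {e k : ℕ} {φ : MvPolynomial (Fin 2) ℤ} (he : 3 * k + 17 ≤ e)
    (hφ : φ.IsHomogeneous (e + 1)) (hirr : Irreducible (MvPolynomial.map (Int.castRingHom ℚ) φ))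

lemma number_eq {A : Set (Finset (ℤ × ℤ))} (hA : ∀ S ∈ A, S.card = k) (H : ℕ) :
    (number φ (e + 1) A H : ℝ) = (dat he hφ hirr).N (inT k A) H := by
  rw [dat_N he hφ hirr hA]
  unfold number
  rw [ncard_Box e H (fun R => ∃ S ∈ A, Through (φ + R) S)]
  rfl

lemma inT_univ : inT k (Sets k) = Set.univ := by
  ext i
  exact ⟨fun _ => Set.mem_univ _, fun _ => i.2⟩

lemma exists_large (hk : 1 ≤ k) (T : ℕ) : ∃ S, S ∈ Large k T := by
  classical
  refine ⟨(Finset.range k).image fun j : ℕ => ((T : ℤ) + 1 + j, (0 : ℤ)), ?_, ?_⟩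
  · rw [Finset.card_image_of_injective _ (fun a b h => by
      have := congrArg Prod.fst h
      simp only at this
      have h2 : (a : ℤ) = b := by linarith
      exact_mod_cast h2), Finset.card_range]
  · refine ⟨((T : ℤ) + 1 + (0 : ℕ), 0), Finset.mem_image.2 ⟨0, Finset.mem_range.2 hk, rfl⟩, ?_⟩
    unfold size
    simp only
    omega

end

theorem result (d : ℕ) : ∃ V : Finset (ℤ × ℤ) → ℝ, ∀ k : ℕ, 1 ≤ k → 3 * k + 18 ≤ d →
    -- the weights and the law
    (∀ S ∈ Sets k, 0 < V S) ∧ Summable (fun S : Sets k => V S.1) ∧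
    (∃ c C : ℝ, 0 < c ∧ ∀ S ∈ Sets k,
      c / (product S : ℝ) ^ (d - 1) ≤ V S ∧ V S ≤ C / (product S : ℝ) ^ (d - k)) ∧
    (∃ c C : ℝ, 0 < c ∧ ∀ T : ℕ, 1 ≤ T →
      c / (T : ℝ) ^ (d - 3) ≤ μ V k (Large k T) ∧
        μ V k (Large k T) ≤ C / (T : ℝ) ^ (d - k - 2)) ∧
    -- all leading forms that are irreducible over the rational numbers
    ∀ φ : MvPolynomial (Fin 2) ℤ, φ.IsHomogeneous d →
      Irreducible (MvPolynomial.map (Int.castRingHom ℚ) φ) →
    -- the number of curves through given points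
    (∀ S ∈ Sets k, Tendsto (fun H : ℕ => (Set.ncard {R ∈ Box d H | Through (φ + R) S} : ℝ) /
      (H : ℝ) ^ (d * (d + 1) / 2 - k)) atTop (𝓝 (V S))) ∧
    -- the number of curves with at least `k` integer points
    Tendsto (fun H : ℕ => (number φ d (Sets k) H : ℝ) / (H : ℝ) ^ (d * (d + 1) / 2 - k)) atTop
      (𝓝 (∑' S : Sets k, V S.1)) ∧
    -- almost all of them are absolutely irreducible
    Tendsto (fun H : ℕ => (Set.ncard {R ∈ Box d H | (∃ S ∈ Sets k, Through (φ + R) S) ∧
        ¬ Irreducible (MvPolynomial.map (Int.castRingHom (AlgebraicClosure ℚ)) (φ + R))} : ℝ) /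
      number φ d (Sets k) H) atTop (𝓝 0) ∧
    -- almost all of them have exactly `k` integer points
    Tendsto (fun H : ℕ => (number φ d (Sets (k + 1)) H : ℝ) / number φ d (Sets k) H) atTop
      (𝓝 0) ∧
    -- the law of the set of the integer points, uniformly for all sets of sets of `k` points
    (∀ ε : ℝ, 0 < ε → ∃ H₀ : ℕ, ∀ H : ℕ, H₀ ≤ H → ∀ A : Set (Finset (ℤ × ℤ)), A ⊆ Sets k →
      |(number φ d A H : ℝ) / number φ d (Sets k) H - μ V k A| ≤ ε) ∧
    -- bounds for all integer points of almost all curves with at least `k` integer points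
    (∀ B : ℕ → ℕ, Tendsto (fun H : ℕ => (number φ d (Large k (B H)) H : ℝ) /
      number φ d (Sets k) H) atTop (𝓝 0) ↔ Tendsto B atTop atTop) := by
  classical
  refine ⟨fun S => VS (d - 1) S, fun k hk hd => ?_⟩
  obtain ⟨e, rfl⟩ : ∃ e, d = e + 1 := ⟨d - 1, by omega⟩
  have he : 3 * k + 17 ≤ e := by omega
  simp only [Nat.add_sub_cancel]
  have hM : (e + 1) * (e + 1 + 1) / 2 = MM e := (MM_eq e).symm
  simp only [hM]
  -- a leading form
  obtain ⟨φ₀, hφ₀, hirr₀⟩ := Pool.Agent.N656.LL.exists_form (d := e + 1) (by omega)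
  have hsum : Summable (fun S : Sets k => VS e S.1) := (dat he hφ₀ hirr₀).summable
  have hwt0 : 0 < ∑' S : Sets k, VS e S.1 := by
    rw [← dat_wt he hφ₀ hirr₀ (A := Sets k) (fun S h => h)]
    obtain ⟨S, hS⟩ := exists_large hk 0
    exact (dat he hφ₀ hirr₀).wt_pos (i := ⟨S, hS.1⟩) hS.1
  refine ⟨fun S _ => VS_pos S, hsum, ?_, ?_, ?_⟩
  · refine ⟨1 / (3 * (MM e : ℝ)) ^ (e + 1), CP e * 2 ^ (e + 1), ?_, fun S hS => ?_⟩
    · have : (0 : ℝ) < MM e := by exact_mod_cast lt_of_lt_of_le (by omega) (MM_pos e)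
      positivity
    · have hS' : S.card = k := hS
      have h1 := VS_ge (e := e) S (by rw [hS']; omega) (by rw [hS']; omega)
      have h2 := VS_le (e := e) S (by rw [hS']; omega)
      rw [hS'] at h2
      rw [product_eq]
      exact ⟨h1, h2⟩
  · obtain ⟨W, hW⟩ : ∃ W, W = ∑' S : Sets k, VS e S.1 := ⟨_, rfl⟩
    obtain ⟨c, hc, h1⟩ := tail_lower (e := e) hk (by omega)
    obtain ⟨C, hC, h2⟩ := tail_upper (e := e) (k := k) (by omega)
    have hLs : ∀ T, Summable ((Large k T).indicator fun S => VS e S) := by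
      intro T
      have h3 : Summable ((Sets k).indicator fun S => VS e S) :=
        summable_subtype_iff_indicator.1 hsum
      refine Summable.of_nonneg_of_le (fun S => Set.indicator_nonneg (fun S _ => (VS_pos S).le) S)
        (fun S => ?_) h3
      exact Set.indicator_le_indicator_of_subset (fun S hS => hS.1) (fun S => (VS_pos S).le) S
    have hLt : ∀ T, ∑' S : Large k T, VS e S.1 =
        ∑' S, (Large k T).indicator (fun S => VS e S) S := fun T =>
      _root_.tsum_subtype (Large k T) (fun S => VS e S)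
    rw [← hW] at hwt0
    refine ⟨c / W, C / W, by positivity, fun T hT => ?_⟩
    have hT0 : (0 : ℝ) < T := by exact_mod_cast hT
    have hμ : μ (fun S => VS e S) k (Large k T) =
        (∑' S, (Large k T).indicator (fun S => VS e S) S) / W := by
      unfold μ
      rw [hLt, hW]
    rw [hμ]
    have e1 : e + 1 - 3 = e - 2 := by omega
    have e2 : e + 1 - k - 2 = e - k - 1 := by omega
    rw [e1, e2, div_right_comm, div_right_comm C]
    constructor
    · obtain ⟨F, hF1, hF2⟩ := h1 T hT
      apply div_le_div_of_nonneg_right _ hwt0.le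
      refine hF2.trans ?_
      have h3 : ∑ S ∈ F, VS e S = ∑ S ∈ F, (Large k T).indicator (fun S => VS e S) S := by
        refine Finset.sum_congr rfl fun S hS => ?_
        rw [Set.indicator_of_mem (show S ∈ Large k T from hF1 S hS)]
      rw [h3]
      exact (hLs T).sum_le_tsum _ fun S _ => Set.indicator_nonneg (fun S _ => (VS_pos S).le) S
    · apply div_le_div_of_nonneg_right _ hwt0.le
      refine Real.tsum_le_of_sum_le
        (fun S => Set.indicator_nonneg (fun S _ => (VS_pos S).le) S) fun F => ?_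
      have h3 : ∑ S ∈ F, (Large k T).indicator (fun S => VS e S) S =
          ∑ S ∈ F.filter (fun S => S ∈ Large k T), VS e S := by
        rw [Finset.sum_filter]
        refine Finset.sum_congr rfl fun S _ => ?_
        rw [Set.indicator_apply]
      rw [h3]
      exact h2 T hT _ fun S hS => (Finset.mem_filter.1 hS).2
  intro φ hφ hirr
  obtain ⟨D, hD⟩ : ∃ D, D = dat he hφ hirr := ⟨_, rfl⟩
  have hn : D.n = MM e - k := by rw [hD]; rfl
  have hcard : ∀ S ∈ Sets k, S.card = k := fun S h => h
  have hnum : ∀ H, (number φ (e + 1) (Sets k) H : ℝ) = (dat he hφ hirr).N Set.univ H := by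
    intro H
    rw [number_eq he hφ hirr hcard, inT_univ]
    rfl
  have hwt : (dat he hφ hirr).wt Set.univ = ∑' S : Sets k, VS e S.1 := by
    have h1 := dat_wt he hφ hirr hcard
    rw [inT_univ] at h1
    exact h1
  have hpos : 0 < (dat he hφ hirr).wt Set.univ := by rw [hwt]; exact hwt0
  refine ⟨?_, ?_, ?_, ?_, ?_, ?_⟩
  · intro S hS
    refine ((dat he hφ hirr).lim ⟨S, hS⟩).congr fun H => ?_
    rw [ncard_Box e H (fun R => Through (φ + R) S)]
    rfl
  · simp only [hnum, ← hwt]
    exact (dat he hφ hirr).lim_set Set.univ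
  · simp only [hnum]
    have h1 := (dat he hφ hirr).rare (fun a : Cf e => ¬ Irreducible
      (MvPolynomial.map (Int.castRingHom (AlgebraicClosure ℚ)) (φ + poly a))) (by
        intro i
        have hi : i.1.card = k := i.2
        have h2 := irr_rare_points (e := e) hφ hirr i.1 (by rw [hi]; omega) (by rw [hi]; omega)
          (Finset.card_pos.1 (by rw [hi]; omega))
        rw [hi] at h2
        exact h2)
    refine ((dat he hφ hirr).div_zero hpos h1).congr fun H => ?_
    congr 2
    rw [ncard_Box e H (fun R => (∃ S ∈ Sets k, Through (φ + R) S) ∧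
        ¬ Irreducible (MvPolynomial.map (Int.castRingHom (AlgebraicClosure ℚ)) (φ + R)))]
    congr 1
    ext a
    constructor
    · rintro ⟨h3, ⟨i, h4⟩, h5⟩
      exact ⟨h3, ⟨i.1, i.2, h4⟩, h5⟩
    · rintro ⟨h3, ⟨S, hS, h4⟩, h5⟩
      exact ⟨h3, ⟨⟨S, hS⟩, h4⟩, h5⟩
  · simp only [hnum]
    have h1 := (dat he hφ hirr).div_zero hpos (dat he hφ hirr).two_rare
    refine squeeze_zero (fun H => div_nonneg (Nat.cast_nonneg _) ((dat he hφ hirr).N_nonneg _ _))
      (fun H => ?_) h1
    apply div_le_div_of_nonneg_right _ ((dat he hφ hirr).N_nonneg _ _)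
    unfold number
    rw [ncard_Box e H (fun R => ∃ S ∈ Sets (k + 1), Through (φ + R) S)]
    have hsub : {a : Cf e | a ∈ ibox ↥(I e) H ∧ ∃ S ∈ Sets (k + 1), Through (φ + poly a) S} ⊆
        {a : Cf e | a ∈ ibox ↥(I e) H ∧ ∃ i j : {S : Finset (ℤ × ℤ) // S.card = k}, i ≠ j ∧
          (∀ P ∈ i.1, MvPolynomial.eval ![P.1, P.2] (φ + poly a) = 0) ∧
          ∀ P ∈ j.1, MvPolynomial.eval ![P.1, P.2] (φ + poly a) = 0} := by
      rintro a ⟨h3, S, hS, h4⟩
      have hS' : S.card = k + 1 := hS
      obtain ⟨P, hP, Q, hQ, hPQ⟩ := Finset.one_lt_card.1 (by omega : 1 < S.card)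
      refine ⟨h3, ⟨S.erase P, by rw [Finset.card_erase_of_mem hP]; omega⟩,
        ⟨S.erase Q, by rw [Finset.card_erase_of_mem hQ]; omega⟩, ?_, ?_, ?_⟩
      · intro h5
        have h6 : S.erase P = S.erase Q := congrArg Subtype.val h5
        have h7 : P ∈ S.erase Q := Finset.mem_erase.2 ⟨hPQ, hP⟩
        rw [← h6] at h7
        exact (Finset.mem_erase.1 h7).1 rfl
      · intro R hR
        exact h4 R (Finset.mem_of_mem_erase hR)
      · intro R hR
        exact h4 R (Finset.mem_of_mem_erase hR)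
    have hfin : {a : Cf e | a ∈ ibox ↥(I e) H ∧ ∃ i j : {S : Finset (ℤ × ℤ) // S.card = k}, i ≠ j ∧
          (∀ P ∈ i.1, MvPolynomial.eval ![P.1, P.2] (φ + poly a) = 0) ∧
          ∀ P ∈ j.1, MvPolynomial.eval ![P.1, P.2] (φ + poly a) = 0}.Finite :=
      ((ibox ↥(I e) H).finite_toSet).subset fun a h => h.1
    exact_mod_cast Set.ncard_le_ncard hsub hfin
  · intro ε hε
    have h1 := (dat he hφ hirr).ratio hpos hε
    rw [eventually_atTop] at h1
    obtain ⟨H₀, h2⟩ := h1
    refine ⟨H₀, fun H hH A hA => ?_⟩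
    have h3 := h2 H hH (inT k A)
    rw [hnum, number_eq he hφ hirr (fun S hS => hA hS)]
    unfold μ
    rw [← hwt, ← dat_wt he hφ hirr (fun S hS => hA hS)]
    exact h3
  · intro B
    have h1 := (dat he hφ hirr).bound_iff (fun T => inT k (Large k T)) ?_ ?_ ?_ B
    · rw [← h1]
      apply tendsto_congr
      intro H
      rw [hnum, number_eq he hφ hirr (fun S hS => hS.1)]
    · intro T T' hTT i hi
      obtain ⟨h2, P, hP, h3⟩ := hi
      exact ⟨h2, P, hP, lt_of_le_of_lt hTT h3⟩
    · intro T
      obtain ⟨S, hS⟩ := exists_large hk T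
      exact ⟨⟨S, hS.1⟩, hS⟩
    · intro i
      refine ⟨i.1.sup size, fun hi => ?_⟩
      obtain ⟨h2, P, hP, h3⟩ := hi
      exact absurd (Finset.le_sup (f := size) hP) (not_le.2 h3)

end Pool.Agent.Results.MP_821da1_nt.ManyPointsLimitLaw
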