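import Pool.Agent.Run7.h197.ES.Main

/-!
# MP_821da1_nt: integer points on the curves `G(A^n, B^n) = R(x, y)`, uniformly in `n`

Let `G(X, Y) = ∑ g_i X^i Y^(k-i)` be a squarefree binary form over `ℤ` of degree `k ≥ 1` with
`g_0 ≠ 0`, and let `A`, `B` be binary forms over `ℤ` of degree `a ≥ 1` without a common zero over `ℝ`.
We consider for all large `n` ALL the curves

  `F(x, y) = G(A(x, y)^n, B(x, y)^n) - R(x, y) = 0`,   `deg R ≤ a k n - 2 a (number of binary digits of n)^κ`;

`F` has degree `a k n`.  The points at infinity of these curves are the zeros of `A^n = α B^n`,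
`G(α, 1) = 0`; their fields of definition are of unbounded degree (for `A = x`, `B = y` they are the
`n`-th roots of the algebraic numbers `α`), and there is in general only one place at infinity over `ℚ`.

**Theorem.** There are `κ`, `n₀`, `c`, which depend on `G` only, such that for all `n ≥ n₀`, with
`m = max(|x|, |y|)` and the sum `len R` of the absolute values of the coefficients of `R`:

(1) if `γ ≥ 1` and `m^a ≤ γ max(|A(x, y)|, |B(x, y)|)` for all integers `x`, `y` (here `A` and `B` may be
any polynomials) and `deg R ≤ a k n - s`, `s ≥ 2 a size(n)^κ`, then every integer point with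
`R(x, y) ≠ 0` on the curve satisfies `m^s ≤ c γ^(2 k n) (len R)^2`; at the others `A(x, y)^2 = B(x, y)^2`.

(2) If `A`, `B` are forms with `A^2 ≠ B^2` then there is `C`, which depends on `G`, `A`, `B` only, such
that ALL integer points on ALL these curves satisfy `m ≤ C^n len R`, unless the curve contains a line
through the origin (it does not if it is absolutely irreducible).

For `A = x`, `B = y` one can take `a = γ = 1`: then `m^s ≤ c (len R)^2`, so that all integer points are
in the box `|x|, |y| ≤ 1` or on the lines `x = ± y`, if `c (len R)^2 < 2^s`.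

For a single `n` the finiteness is due to Siegel, and bounds for these curves with one ineffective
constant for each field (so for each `n`) are known from the starting hand-ins; here there is one
constant for the infinitely many fields.  In particular for fixed `G`, `A`, `B` the size of the integer
points is bounded by a computable function of the coefficients of `F` on this class of curves.

Proof.  If `m` is large then `A^n / B^n` is close to one of the numbers `α`.  The distance is bounded
below by a lower bound for `|n log(A/B) - log α + k π i|` which is sharp in the height of `A/B`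
(`Run7.h197.BK`, proved by Baker's method): `|A^n - α B^n| ≥ c M^n M^(-size(n)^κ)`, `M = max(|A|, |B|)`.
-/

set_option autoImplicit false

open MvPolynomial

namespace Pool.Agent.Results.MP_821da1_nt.PowerFamilies

/-- The sum of the absolute values of the coefficients. -/
def len (R : MvPolynomial (Fin 2) ℤ) : ℤ := ∑ d ∈ R.support, |R.coeff d|

/-- The polynomial `G(A^n, B^n) - R`, where `G(X, Y) = ∑ g_i X^i Y^(k-i)`, `k = deg g`. -/
noncomputable def curve (g : Polynomial ℤ) (A B : MvPolynomial (Fin 2) ℤ) (n : ℕ)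
    (R : MvPolynomial (Fin 2) ℤ) : MvPolynomial (Fin 2) ℤ :=
  ∑ i ∈ Finset.range (g.natDegree + 1),
    C (g.coeff i) * (A ^ n) ^ i * (B ^ n) ^ (g.natDegree - i) - R

/-- `max (|x|, |y|)`. -/
noncomputable def size (x y : ℤ) : ℝ := max |(x : ℝ)| |(y : ℝ)|

/-- **Integer points on the curves `G(A^n, B^n) = R`.** -/
theorem result (g : Polynomial ℤ) (hsq : (g.map (Int.castRingHom ℚ)).Separable)
    (h0 : g.coeff 0 ≠ 0) (hk : 1 ≤ g.natDegree) :
    ∃ κ n₀ : ℕ, ∃ c : ℝ, 1 ≤ c ∧
      ∀ (a : ℕ) (A B : MvPolynomial (Fin 2) ℤ) (γ : ℝ), 1 ≤ a → 1 ≤ γ →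
      (∀ x y : ℤ, size x y ^ a ≤ γ * max |(eval ![x, y] A : ℝ)| |(eval ![x, y] B : ℝ)|) →
      -- (1)
      (∀ n, n₀ ≤ n → ∀ (R : MvPolynomial (Fin 2) ℤ) (s : ℕ), 2 * a * Nat.size n ^ κ ≤ s →
        R.totalDegree + s ≤ a * (g.natDegree * n) → ∀ x y : ℤ, eval ![x, y] (curve g A B n R) = 0 →
          size x y ^ s ≤ c * γ ^ (2 * (g.natDegree * n)) * (len R : ℝ) ^ 2 ∨
            (eval ![x, y] R = 0 ∧ (eval ![x, y] A) ^ 2 = (eval ![x, y] B) ^ 2)) ∧
      -- (2)
      (A.IsHomogeneous a → B.IsHomogeneous a → A ^ 2 ≠ B ^ 2 → ∃ C : ℝ, 1 ≤ C ∧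
        ∀ n, n₀ ≤ n → ∀ R : MvPolynomial (Fin 2) ℤ,
          R.totalDegree + 2 * a * Nat.size n ^ κ ≤ a * (g.natDegree * n) →
          (∀ x₀ y₀ : ℤ, (x₀ ≠ 0 ∨ y₀ ≠ 0) → ∃ t : ℤ, eval ![t * x₀, t * y₀] (curve g A B n R) ≠ 0) →
            ∀ x y : ℤ, eval ![x, y] (curve g A B n R) = 0 → size x y ≤ C ^ n * len R) :=
  Run7.h197.ES.partB g hsq h0 hk

end Pool.Agent.Results.MP_821da1_nt.PowerFamilies
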