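import Mathlib
import Pool.Agent.Run7.h28.EC.Fin

/-!
# Integer points with sparse abscissa and arbitrary ordinate on all plane curves of given weights

The constant of the bound depends on the splitting field of the top form only: all other
coefficients, and the top form itself, are free, and the bound is a power of their size.
-/

open Height

namespace Pool.Agent.Results.MP_821da1_nt.SparseAbscissa

/-- The top polynomial of `F(x, y)` for the weights `q` of `x` and `p` of `y`: the part of `F` of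
weighted degree `p q`, at the point `(1, Y)`. -/
noncomputable def topPoly (p q : ℕ) (F : MvPolynomial (Fin 2) ℤ) : Polynomial ℚ :=
  MvPolynomial.aeval ![1, Polynomial.X]
    (MvPolynomial.weightedHomogeneousComponent ![q, p] (p * q) F)

/-- Let `K` be a number field, `φ` a complex embedding of `K`, `Γ` a finitely generated subgroup of
`Kˣ`, `p, q ≥ 1`, and `k`, `B`, `δ > 0` be given.  There is a constant `C` such that the following
holds for every `M` and every `F ∈ ℤ[x, y]` with coefficients of absolute value at most `M`, of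
weighted degree at most `p q` (the weight of `x` is `q`, the weight of `y` is `p`), with coefficient
`1` of `y ^ q`, whose top polynomial is separable and splits over `K`.  Let `(x, y)` be an integer
point of the curve `F = 0` such that `x = v + ∑ a_j u_j` with `v, u_j ∈ Γ` and `a_j ∈ K` of height at
most `M`, where `v` has height at most `M (|x| + 1) ^ B` and `|φ (x - v)| ≤ M |x| ^ (1 - δ)`; there is
no condition on `y`.  Then either `max (|x|, |y|) ≤ (C M) ^ C`, or `(x, y)` is the value at `T = 1` of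
a solution of `F (X (T), Y (T)) = 0` in Laurent polynomials with `X` not constant. -/
theorem result {K : Type} [Field K] [NumberField K] (φ : K →+* ℂ) (Γ : Subgroup Kˣ) (hΓ : Γ.FG)
    (p q k : ℕ) (hp : 0 < p) (hq : 0 < q) (B δ : ℝ) (hδ : 0 < δ) :
    ∃ C : ℝ, 0 < C ∧ ∀ (M : ℝ) (F : MvPolynomial (Fin 2) ℤ),
      (∀ m, |((F.coeff m : ℤ) : ℝ)| ≤ M) →
      (∀ m, F.coeff m ≠ 0 → q * m 0 + p * m 1 ≤ p * q) →
      F.coeff (Finsupp.single 1 q) = 1 →
      (topPoly p q F).Separable → ((topPoly p q F).map (algebraMap ℚ K)).Splits →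
      ∀ (v : Γ) (u : Fin k → Γ) (a : Fin k → K) (x y : ℤ),
      MvPolynomial.eval ![x, y] F = 0 →
      (∀ j, mulHeight₁ (a j) ≤ M) → (x : K) = ((v : Kˣ) : K) + ∑ j, a j * ((u j : Kˣ) : K) →
      mulHeight₁ ((v : Kˣ) : K) ≤ M * (|(x : ℝ)| + 1) ^ B →
      ‖φ ((x : K) - ((v : Kˣ) : K))‖ ≤ M * |(x : ℝ)| ^ (1 - δ) →
      max |(x : ℝ)| |(y : ℝ)| ≤ (C * M) ^ C ∨
      ∃ X Y : LaurentPolynomial ℂ, (¬ ∃ c, X = LaurentPolynomial.C c) ∧
        LaurentPolynomial.eval₂ (RingHom.id ℂ) 1 X = x ∧
        LaurentPolynomial.eval₂ (RingHom.id ℂ) 1 Y = y ∧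
        MvPolynomial.aeval ![X, Y] F = 0 := by
  obtain ⟨C, hC, h⟩ := Pool.Agent.Run7.h28.EC.main φ Γ hΓ p q k hp hq B δ hδ
  refine ⟨C, hC, fun M F h1 h2 h3 h4 h5 v u a x y h6 h7 h8 h9 h10 => ?_⟩
  exact h M F ⟨h1, h2, h3, h4, h5⟩ v u a x y h7 h8 h9 h10 h6

end Pool.Agent.Results.MP_821da1_nt.SparseAbscissa
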